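import Pool.Agent.Q264.HM.Stm

set_option autoImplicit false

/-!
# Project HM (helper264), lemma CHECK: the finite check is computable
-/

namespace Pool.Agent.Q285.HM

open Pool.Agent.Q264.HM

theorem t_CHECK (hALL : S_ALL) (hWORDS : S_WORDS) : S_CHECK := by
  intro X Y _ _ tX tY K htX htY hK
  obtain ⟨-, hw⟩ := hWORDS
  have hwK : Computable fun L : List (List X × List Y) => words L (K L) :=
    Computable₂.comp (hw (List X × List Y)).to_comp Computable.id hK
  have hF : Computable fun u : List (List X × List Y) => u.flatMap Prod.fst :=
    (Primrec.list_flatMap Primrec.id (Primrec.fst.comp Primrec.snd).to₂).to_comp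
  have hS : Computable fun u : List (List X × List Y) => u.flatMap Prod.snd :=
    (Primrec.list_flatMap Primrec.id (Primrec.snd.comp Primrec.snd).to₂).to_comp
  have h2 : Computable fun p : (List (List X × List Y) × List (List X × List Y)) ×
      List (List X × List Y) => p.1.2 := Computable.snd.comp Computable.fst
  have h3 : Computable fun p : (List (List X × List Y) × List (List X × List Y)) ×
      List (List X × List Y) => p.2 := Computable.snd
  have hX : Computable fun p : (List (List X × List Y) × List (List X × List Y)) ×
      List (List X × List Y) => tX (p.1.2.flatMap Prod.fst) (p.2.flatMap Prod.fst) :=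
    htX.comp (hF.comp h2) (hF.comp h3)
  have hY : Computable fun p : (List (List X × List Y) × List (List X × List Y)) ×
      List (List X × List Y) => tY (p.1.2.flatMap Prod.snd) (p.2.flatMap Prod.snd) :=
    htY.comp (hS.comp h2) (hS.comp h3)
  have ht : Computable₂ fun (a : List (List X × List Y) × List (List X × List Y))
      (v : List (List X × List Y)) =>
      !(tX (a.2.flatMap Prod.fst) (v.flatMap Prod.fst)) ||
        tY (a.2.flatMap Prod.snd) (v.flatMap Prod.snd) :=
    Computable₂.comp Primrec.or.to_comp (Primrec.not.to_comp.comp hX) hY
  have hin := hALL (List (List X × List Y) × List (List X × List Y)) (List (List X × List Y))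
    (fun a => words a.1 (K a.1)) _ (hwK.comp Computable.fst) ht
  exact hALL (List (List X × List Y)) (List (List X × List Y)) (fun L => words L (K L))
    (fun L u => (words L (K L)).all fun v =>
      !(tX (u.flatMap Prod.fst) (v.flatMap Prod.fst)) ||
        tY (u.flatMap Prod.snd) (v.flatMap Prod.snd)) hwK hin

end Pool.Agent.Q285.HM
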