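import Pool.Agent.Q75.HM.Stm

set_option autoImplicit false

/-!
# Project HM (helper75), job HM-OZ: the zero function in the Perron class
-/

namespace Pool.Agent.Q285.HM

open Pool.Agent.Q75.HM

theorem oz : S_OZ := by
  intro C t h0 hfr
  have hmem : (0 : ℝ) ∈ PS C t := by
    refine ⟨fun _ => 0, continuousOn_const.lowerSemicontinuousOn, fun z _ => ⟨le_refl _, zero_le_one⟩,
      fun a r _ _ => by simp, ?_, rfl⟩
    intro ζ hζ
    exact absurd hζ.2 (hfr ζ hζ.1)
  apply le_antisymm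
  · refine csInf_le ⟨0, ?_⟩ hmem
    rintro x ⟨u, -, hu, -, -, rfl⟩
    exact (hu 0 h0).1
  · refine le_csInf ⟨0, hmem⟩ ?_
    rintro x ⟨u, -, hu, -, -, rfl⟩
    exact (hu 0 h0).1

end Pool.Agent.Q285.HM
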